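import Pool.Agent.Q155.APN.Field32

set_option autoImplicit false

namespace Q155.APN

/-- The search over additive maps, organised by the values on a basis. -/
def allL (n : ℕ) (p : ℕ → Bool) : Bool := (List.range n).all p

def c3 (c u v w : ℕ) : Bool :=
  okN 4 (w ^^^ c) && (okN 5 (w ^^^ u ^^^ c) && (okN 6 (w ^^^ v ^^^ c) && okN 7 (w ^^^ v ^^^ u ^^^ c)))

def c4 (c u v w x : ℕ) : Bool :=
  okN 8 (x ^^^ c) && (okN 9 (x ^^^ u ^^^ c) && (okN 10 (x ^^^ v ^^^ c) &&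
    (okN 11 (x ^^^ v ^^^ u ^^^ c) && (okN 12 (x ^^^ w ^^^ c) && (okN 13 (x ^^^ w ^^^ u ^^^ c) &&
    (okN 14 (x ^^^ w ^^^ v ^^^ c) && okN 15 (x ^^^ w ^^^ v ^^^ u ^^^ c)))))))

def c5 (c u v w x y : ℕ) : Bool :=
  okN 16 (y ^^^ c) && (okN 17 (y ^^^ u ^^^ c) && (okN 18 (y ^^^ v ^^^ c) &&
    (okN 19 (y ^^^ v ^^^ u ^^^ c) && (okN 20 (y ^^^ w ^^^ c) && (okN 21 (y ^^^ w ^^^ u ^^^ c) &&
    (okN 22 (y ^^^ w ^^^ v ^^^ c) && (okN 23 (y ^^^ w ^^^ v ^^^ u ^^^ c) &&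
    (okN 24 (y ^^^ x ^^^ c) && (okN 25 (y ^^^ x ^^^ u ^^^ c) && (okN 26 (y ^^^ x ^^^ v ^^^ c) &&
    (okN 27 (y ^^^ x ^^^ v ^^^ u ^^^ c) && (okN 28 (y ^^^ x ^^^ w ^^^ c) &&
    (okN 29 (y ^^^ x ^^^ w ^^^ u ^^^ c) && (okN 30 (y ^^^ x ^^^ w ^^^ v ^^^ c) &&
    okN 31 (y ^^^ x ^^^ w ^^^ v ^^^ u ^^^ c)))))))))))))))

def chk (c : ℕ) : Bool :=
  allL 32 fun u => !(okN 1 (u ^^^ c)) ||
  allL 32 fun v => !(okN 2 (v ^^^ c) && okN 3 (v ^^^ u ^^^ c)) ||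
  allL 32 fun w => !(c3 c u v w) ||
  allL 32 fun x => !(c4 c u v w x) ||
  allL 32 fun y => !(c5 c u v w x y) ||
    (u == 0 && (v == 0 && (w == 0 && (x == 0 && (y == 0 && c == 0)))))

theorem chk_zero : chk 0 = true := by decide +kernel

theorem chk_one : chk 1 = true := by decide +kernel

def PN (s a b : ℕ) : Bool :=
  okN a b && (okN a (b ^^^ 1) && (okN (a ^^^ s) b && okN (a ^^^ s) (b ^^^ 1)))

/-- Number of candidates with even second code. -/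
def cnt (s a b : ℕ) : ℕ :=
  ((List.range 512).filter fun n =>
    PN s (n / 16) (2 * (n % 16)) && PN s ((n / 16) ^^^ a) ((2 * (n % 16)) ^^^ b)).length

def chk2 (s : ℕ) : Bool :=
  s == 0 || (allL 32 fun a => allL 16 fun b => !(PN s a (2 * b)) ||
    ((a == 0 || a == s) && b == 0) || Nat.blt (cnt s a (2 * b)) 16)

theorem chk2_all : allL 32 chk2 = true := by decide +kernel

end Q155.APN
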