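import Pool.Agent.Q155.APN.K32

set_option autoImplicit false

namespace Q155.APN

theorem add_zero' : ∀ a : K32, a + 0 = a := by decide +kernel
theorem mul_one' : ∀ a : K32, a * 1 = a := by decide +kernel
theorem right_distrib' (a b c : K32) : (a + b) * c = a * c + b * c := by
  rw [mul_comm' (a + b), left_distrib', mul_comm' a, mul_comm' b]
theorem zero_mul' : ∀ a : K32, 0 * a = 0 := by decide +kernel
theorem mul_zero' : ∀ a : K32, a * 0 = 0 := by decide +kernel

instance : CommRing K32 where
  add_assoc := add_assoc'
  zero_add := zero_add'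
  add_zero := add_zero'
  add_comm := add_comm'
  neg_add_cancel := neg_add'
  mul_assoc := mul_assoc'
  one_mul := one_mul'
  mul_one := mul_one'
  mul_comm := mul_comm'
  left_distrib := left_distrib'
  right_distrib := right_distrib'
  zero_mul := zero_mul'
  mul_zero := mul_zero'
  nsmul := nsmulRec
  zsmul := zsmulRec

instance : Field K32 where
  exists_pair_ne := ⟨0, 1, zero_ne_one'⟩
  mul_inv_cancel := mul_inv'
  inv_zero := inv_zero'
  nnqsmul := _
  nnqsmul_def := fun _ _ => rfl
  qsmul := _
  qsmul_def := fun _ _ => rfl

theorem card_K32 : Fintype.card K32 = 32 := by decide +kernel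

theorem add_self' : ∀ a : K32, a + a = 0 := by decide +kernel

/-- Table of the pairs `(a, b)` that are not differences of two points of the graph of the
inverse map. -/
def okT : ℕ := 0x13978fa12bc95a1d60f56ca39650ee2746e357311c0b4af7dac819c7c15d9267ea86c85b7b6ae20328659f4bb11147db4741a9f5a1a2fec18cc7618fed3a052d91ec0b797cd62615304e55bd4b24363ff6ac828db8357165dd74d8818a3ba4d9a61e2b9307bc8557bd09b4334c98f1e940b3b91f570b7c4937f210e9ffffffff

def okN (a b : ℕ) : Bool := Nat.testBit okT (32 * a + b)

/-- The pair is not a difference of two distinct points of the graph of the inverse map. -/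
def Ok (a b : K32) : Prop := a ≠ 0 → ∀ x : K32, x⁻¹ + (x + a)⁻¹ ≠ b

instance (a b : K32) : Decidable (Ok a b) := inferInstanceAs (Decidable (a ≠ 0 → ∀ x : K32, _))

theorem okN_of : ∀ a b : K32, Ok a b → okN a.val b.val = true := by decide +kernel

theorem val_add : ∀ a b : K32, (a + b).val = a.val ^^^ b.val := by decide +kernel

theorem val_lt : ∀ a : K32, a.val < 32 := by decide +kernel

theorem val_inj : ∀ a b : K32, a.val = b.val → a = b := by decide +kernel

end Q155.APN
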