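import Mathlib

set_option autoImplicit false

/-! A concrete model of the field with 32 elements, on which statements can be checked by
computation. -/

namespace Q155.APN

/-- The table of products modulo `x ^ 5 + x ^ 2 + 1`. -/
def mulTable : ℕ := 0x935360fb458b95517726a2df03e383ba19326fe06ce8ad107d363e18bd16d945c64aab839373e7c04d2cb93db0d1cb80f3c355ea88b1d3c90db17fa0b29774d6886c60c939f32e704d18fbf087f0f7800ea491662a3f28f27eec6dbc5757a65c30344f60f11f5c8d128283bbb4dc162692fe8e65ba75c740d0db48a0df657623fa099a89dc05f62f24b75f202f60854be7d8dd6a3039e11319acde16aef6d70089b4d3c19bc3e64764b21d11fa8bc957436e2ee0760f1e2aa37e4d0eae82668b3f22e16ec92fa6c057cb0a076e99b896e057ea2471d9992457ed3ea0a870c7ec562413df2a6791beb470b11dddacb6801443225cf4775be46d78d272ae3fecb16a680e60ebf8efb7cccaf0ada748a9e86b96c488e0298640ca3cfb9a012d0535e99d2547256dbcc27eeb1e20358736713990ae7c23ad5edde0c494fbf4aa9600a6d4568a7c1b3b2d548bfc02e3271741ed98f9e0596f9b6144a690649ebb8798268e3f7867d971c078ab8f4c894165fcd06e0b3768754732f91be9a08710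42a7b1fcceb51a5e70adaddc6f0b735a61803b23a71713af868e5d413361b79332a7c49ed960c4986afc2b122dc7977148fb723a1a9e4edf5140e55c7ed1e6f5d85fd9a4c4543cc162d4d01dc9201ae7b33ade4873161394bfcef9684aed5a5c4100bc33e5b0a253483b471f43cc1a4f5dacb7c4b8e04388285b9aeee3728d2f3856dfe675953d8530c0624c3c76570916eac3fab4f9911d0ddfa347a8a09df7f19d6fb4bda309cacf6354b425e62906208021c4142dcde7f5984ed58caf4efb784a9ec29860de7fd9c6f55a5ed184e5f7358b52507314831040ffbbcdeb38bdab49ca307b9ac5a928398a4188200000000000000000000000000000000000000000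

/-- The table of inverses. -/
def invTable : ℕ := 0xdd263fd5512a35ee8b0b699e78649663ae9e4820

/-- The field with 32 elements. -/
def K32 : Type := Fin 32

instance : DecidableEq K32 := inferInstanceAs (DecidableEq (Fin 32))
instance : Fintype K32 := inferInstanceAs (Fintype (Fin 32))

/-- The code of an element. -/
def K32.val (a : K32) : ℕ := Fin.val (n := 32) a

/-- The element with a given code. -/
def K32.of (n : ℕ) : K32 := (⟨n % 32, Nat.mod_lt _ (by decide)⟩ : Fin 32)

instance : Add K32 := ⟨fun a b => K32.of (a.val ^^^ b.val)⟩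
instance : Mul K32 := ⟨fun a b => K32.of (mulTable >>> (5 * (32 * a.val + b.val)))⟩
instance : Zero K32 := ⟨K32.of 0⟩
instance : One K32 := ⟨K32.of 1⟩
instance : Inv K32 := ⟨fun a => K32.of (invTable >>> (5 * a.val))⟩
instance : Neg K32 := ⟨fun a => a⟩

theorem add_assoc' : ∀ a b c : K32, a + b + c = a + (b + c) := by decide +kernel
theorem add_comm' : ∀ a b : K32, a + b = b + a := by decide +kernel
theorem zero_add' : ∀ a : K32, 0 + a = a := by decide +kernel
theorem neg_add' : ∀ a : K32, -a + a = 0 := by decide +kernel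
theorem mul_assoc' : ∀ a b c : K32, a * b * c = a * (b * c) := by decide +kernel
theorem mul_comm' : ∀ a b : K32, a * b = b * a := by decide +kernel
theorem one_mul' : ∀ a : K32, 1 * a = a := by decide +kernel
theorem left_distrib' : ∀ a b c : K32, a * (b + c) = a * b + a * c := by decide +kernel
theorem mul_inv' : ∀ a : K32, a ≠ 0 → a * a⁻¹ = 1 := by decide +kernel
theorem inv_zero' : (0 : K32)⁻¹ = 0 := by decide +kernel
theorem zero_ne_one' : (0 : K32) ≠ 1 := by decide +kernel

end Q155.APN
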