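import Pool.Agent.Q155.APN.Search

set_option autoImplicit false

namespace Q155.APN

open Finset

theorem val_one : (1 : K32).val = 1 := by decide +kernel

theorem val_zero : (0 : K32).val = 0 := by decide +kernel

/-- A homomorphism that does not vanish on the differences of the graph of the inverse map is
injective on one of the two factors. -/
theorem case_three (A : K32 × K32 →+ K32)
    (hA : ∀ a : K32, a ≠ 0 → ∀ x : K32, A (a, x⁻¹ + (x + a)⁻¹) ≠ 0)
    (s : K32) (hs : s ≠ 0) (h1 : A (s, 0) = 0) (h2 : A (0, 1) = 0) : False := by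
  have hok : ∀ a b : K32, A (a, b) = 0 → okN a.val b.val = true := by
    intro a b hab
    apply okN_of
    intro ha x hx
    apply hA a ha x
    rw [hx, hab]
  have hPN : ∀ a b : K32, A (a, b) = 0 → PN s.val a.val b.val = true := by
    intro a b hab
    have e1 : A (a, b + 1) = 0 := by
      have : ((a, b + 1) : K32 × K32) = (a, b) + (0, 1) := by simp
      rw [this, map_add, hab, h2, add_zero]
    have e2 : A (a + s, b) = 0 := by
      have : ((a + s, b) : K32 × K32) = (a, b) + (s, 0) := by simp
      rw [this, map_add, hab, h1, add_zero]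
    have e3 : A (a + s, b + 1) = 0 := by
      have : ((a + s, b + 1) : K32 × K32) = (a + s, b) + (0, 1) := by simp
      rw [this, map_add, e2, h2, add_zero]
    have f1 := hok _ _ e1
    have f2 := hok _ _ e2
    have f3 := hok _ _ e3
    rw [val_add, val_one] at f1
    rw [val_add] at f2
    rw [val_add a s, val_add b 1, val_one] at f3
    unfold PN
    rw [hok _ _ hab, f1, f2, f3]
    rfl
  set W : Finset (K32 × K32) := univ.filter (fun z => A z = 0) with hW
  have hWm : ∀ z, z ∈ W ↔ A z = 0 := by
    intro z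
    rw [hW, mem_filter]
    simp
  have hWc : 32 ≤ W.card := by
    have h3 : (univ : Finset (K32 × K32)).card ≤ W.card * (univ : Finset K32).card := by
      apply Finset.card_le_mul_card_image_of_maps_to (f := A) (fun z _ => mem_univ _)
      intro c _
      rcases (univ.filter (fun z => A z = c)).eq_empty_or_nonempty with h | ⟨z₀, hz₀⟩
      · rw [h, card_empty]
        exact Nat.zero_le _
      · rw [mem_filter] at hz₀
        apply Finset.card_le_card_of_injOn (fun z => z + z₀)
        · intro z hz
          rw [mem_coe, mem_filter] at hz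
          rw [mem_coe, hWm, map_add, hz.2, hz₀.2, add_self']
        · intro z _ w _ hzw
          exact add_right_cancel hzw
    rw [card_univ, card_univ, Fintype.card_prod, card_K32] at h3
    omega
  set E : Finset (K32 × K32) := W.filter (fun z => z.2.val % 2 = 0) with hE
  have hEc : 16 ≤ E.card := by
    have h3 := Finset.card_filter_add_card_filter_not (s := W) (fun z => z.2.val % 2 = 0)
    have h4 : (W.filter (fun z => ¬ z.2.val % 2 = 0)).card ≤ E.card := by
      apply Finset.card_le_card_of_injOn (fun z => z + (0, 1))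
      · intro z hz
        rw [mem_coe, mem_filter, hWm] at hz
        rw [mem_coe, hE, mem_filter, hWm, map_add, hz.1, h2]
        refine ⟨add_zero 0, ?_⟩
        have h5 := hz.2
        change (z.2 + 1).val % 2 = 0
        rw [val_add, val_one]
        have h6 : (z.2.val ^^^ 1) % 2 = (z.2.val % 2) ^^^ (1 % 2) := Nat.xor_mod_two_pow (n := 1)
        rw [h6]
        have h7 : z.2.val % 2 = 1 := by omega
        rw [h7]
        rfl
      · intro z _ w _ hzw
        exact add_right_cancel hzw
    rw [← hE] at h3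
    omega
  obtain ⟨w, hw, hw'⟩ : ∃ w ∈ E, w ∉ ({(0, 0), (s, 0)} : Finset (K32 × K32)) := by
    by_contra hcon
    push Not at hcon
    have h5 : E ⊆ {(0, 0), (s, 0)} := hcon
    have h6 := card_le_card h5
    have h7 : ({(0, 0), (s, 0)} : Finset (K32 × K32)).card ≤ 2 := card_le_two
    omega
  rw [hE, mem_filter, hWm] at hw
  have hc := (allL_iff.1 chk2_all) s.val (val_lt s)
  unfold chk2 at hc
  have hs0 : (s.val == 0) = false := by
    rw [beq_eq_false_iff_ne]
    intro h
    exact hs (val_inj _ _ (h.trans val_zero.symm))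
  rw [hs0, Bool.false_or] at hc
  have hc1 := (allL_iff.1 hc) w.1.val (val_lt _)
  have hb : w.2.val / 2 < 16 := by
    have := val_lt w.2
    omega
  have hb2 : 2 * (w.2.val / 2) = w.2.val := by omega
  have hc2 := (allL_iff.1 hc1) (w.2.val / 2) hb
  rw [hb2, hPN w.1 w.2 hw.1, Bool.not_true, Bool.false_or, Bool.or_eq_true] at hc2
  rcases hc2 with h | h
  · apply hw'
    simp only [Bool.and_eq_true, Bool.or_eq_true, beq_iff_eq] at h
    obtain ⟨h3, h4⟩ := h
    have h5 : w.2 = 0 := val_inj _ _ (by rw [val_zero]; omega)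
    rw [mem_insert, mem_singleton]
    rcases h3 with h3 | h3
    · left
      exact Prod.ext (val_inj _ _ (h3.trans val_zero.symm)) h5
    · right
      exact Prod.ext (val_inj _ _ h3) h5
  · have h3 : cnt s.val w.1.val w.2.val < 16 := by
      rw [Nat.blt_eq] at h
      exact h
    have h4 : E.card ≤ cnt s.val w.1.val w.2.val := by
      unfold cnt
      have hnd : ((List.range 512).filter fun n =>
        PN s.val (n / 16) (2 * (n % 16)) && PN s.val ((n / 16) ^^^ w.1.val)
          ((2 * (n % 16)) ^^^ w.2.val)).Nodup := List.nodup_range.filter _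
      rw [← List.toFinset_card_of_nodup hnd]
      apply Finset.card_le_card_of_injOn (fun z => 16 * z.1.val + z.2.val / 2)
      · intro z hz
        rw [mem_coe, hE, mem_filter, hWm] at hz
        have g1 := val_lt z.1
        have g2 := val_lt z.2
        have g3 : (16 * z.1.val + z.2.val / 2) / 16 = z.1.val := by omega
        have g4 : 2 * ((16 * z.1.val + z.2.val / 2) % 16) = z.2.val := by omega
        rw [mem_coe, List.mem_toFinset, List.mem_filter, List.mem_range]
        beta_reduce
        refine ⟨by omega, ?_⟩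
        rw [g3, g4, hPN _ _ hz.1]
        have g5 : A (z.1 + w.1, z.2 + w.2) = 0 := by
          have : ((z.1 + w.1, z.2 + w.2) : K32 × K32) = z + w := rfl
          rw [this, map_add, hz.1, hw.1, add_zero]
        have g6 := hPN _ _ g5
        rw [val_add, val_add] at g6
        rw [g6]
        rfl
      · intro z hz z' hz' hzz
        rw [mem_coe, hE, mem_filter] at hz hz'
        simp only at hzz
        have g1 := val_lt z.1
        have g2 := val_lt z.2
        have g1' := val_lt z'.1
        have g2' := val_lt z'.2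
        exact Prod.ext (val_inj _ _ (by omega)) (val_inj _ _ (by omega))
    omega

theorem sub_eq_add' (a b : K32) : a - b = a + b := by
  rw [sub_eq_add_neg]
  rfl

theorem eq_of_add_zero {a b : K32} (h : a + b = 0) : a = b := by
  have h1 : a + b + b = b := by rw [h, zero_add]
  rwa [add_assoc, add_self', add_zero] at h1

theorem swap_mem {a : K32} (ha : a ≠ 0) (x : K32) : ∃ y : K32,
    x⁻¹ + (x + a)⁻¹ ≠ 0 ∧ y⁻¹ + (y + (x⁻¹ + (x + a)⁻¹))⁻¹ = a := by
  refine ⟨x⁻¹, ?_, ?_⟩
  · intro h
    have h1 := inv_injective (eq_of_add_zero h)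
    apply ha
    have h2 : x + a = x + 0 := by rw [add_zero]; exact h1.symm
    exact add_left_cancel h2
  · rw [← add_assoc, add_self', zero_add, inv_inv, inv_inv, ← add_assoc, add_self', zero_add]

/-- The main statement over the concrete field. -/
theorem key_aux (φ : (K32 × K32) ≃+ (K32 × K32))
    (h : ∀ a : K32, a ≠ 0 → ∀ x : K32, (φ (a, x⁻¹ + (x + a)⁻¹)).1 ≠ 0)
    (hinj : ∀ a : K32, (φ (a, 0)).1 = 0 → a = 0) (c : K32) (hc : c ≠ 0) :
    ∃ a x : K32, a ≠ 0 ∧ (φ (a, x⁻¹ + (x + a)⁻¹)).2 = c := by
  set A₁ : K32 →+ K32 := (AddMonoidHom.fst K32 K32).comp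
    (φ.toAddMonoidHom.comp (AddMonoidHom.inl K32 K32)) with hA₁
  set A₂ : K32 →+ K32 := (AddMonoidHom.fst K32 K32).comp
    (φ.toAddMonoidHom.comp (AddMonoidHom.inr K32 K32)) with hA₂
  set B₁ : K32 →+ K32 := (AddMonoidHom.snd K32 K32).comp
    (φ.toAddMonoidHom.comp (AddMonoidHom.inl K32 K32)) with hB₁
  set B₂ : K32 →+ K32 := (AddMonoidHom.snd K32 K32).comp
    (φ.toAddMonoidHom.comp (AddMonoidHom.inr K32 K32)) with hB₂
  have hφ : ∀ a b, φ (a, b) = (A₁ a + A₂ b, B₁ a + B₂ b) := by
    intro a b
    have e : ((a, b) : K32 × K32) = (a, 0) + (0, b) := by simp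
    rw [e, map_add]
    rfl
  have hA₁i : Function.Injective A₁ := by
    rw [injective_iff_map_eq_zero]
    intro a ha
    apply hinj
    rw [hφ, map_zero, add_zero]
    exact ha
  have hA₁b : Function.Bijective A₁ := Finite.injective_iff_bijective.1 hA₁i
  set e₁ : K32 ≃+ K32 := AddEquiv.ofBijective A₁ hA₁b with he₁
  have he₁' : ∀ y, A₁ (e₁.symm y) = y := fun y => e₁.apply_symm_apply y
  -- the second component of the first coordinate vanishes
  have hM := affine_avoid (e₁.symm.toAddMonoidHom.comp A₂) 0 (by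
    intro b hb y hy
    obtain ⟨x, hx0, hx⟩ := swap_mem hb y
    rw [add_zero] at hy
    apply h _ hx0 x
    rw [hφ, hx, hy]
    change A₁ (e₁.symm (A₂ b)) + A₂ b = 0
    rw [he₁', add_self'])
  have hA₂0 : ∀ b, A₂ b = 0 := by
    intro b
    have h1 := DFunLike.congr_fun hM.2 b
    have h2 : e₁.symm (A₂ b) = 0 := h1
    rw [← he₁' (A₂ b), h2, map_zero]
  have hB₂i : Function.Injective B₂ := by
    rw [injective_iff_map_eq_zero]
    intro b hb
    have h1 : φ (0, b) = 0 := by
      rw [hφ, map_zero, map_zero, hA₂0, hb]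
      simp
    have h2 : ((0, b) : K32 × K32) = 0 := φ.injective (h1.trans (map_zero φ).symm)
    exact congrArg Prod.snd h2
  have hB₂b : Function.Bijective B₂ := Finite.injective_iff_bijective.1 hB₂i
  set e₂ : K32 ≃+ K32 := AddEquiv.ofBijective B₂ hB₂b with he₂
  have he₂' : ∀ y, B₂ (e₂.symm y) = y := fun y => e₂.apply_symm_apply y
  by_contra hcon
  push Not at hcon
  have hfin := affine_avoid (e₂.symm.toAddMonoidHom.comp B₁) (e₂.symm c) (by
    intro a ha x hx
    apply hcon a x ha
    rw [hφ, hx]
    change B₁ a + B₂ (e₂.symm (B₁ a) + e₂.symm c) = c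
    rw [map_add, he₂', he₂', ← add_assoc, add_self', zero_add])
  apply hc
  rw [← he₂' c, hfin.1, map_zero]

theorem key (φ : (K32 × K32) ≃+ (K32 × K32))
    (h : ∀ a : K32, a ≠ 0 → ∀ x : K32, (φ (a, x⁻¹ + (x + a)⁻¹)).1 ≠ 0) (c : K32) (hc : c ≠ 0) :
    ∃ a x : K32, a ≠ 0 ∧ (φ (a, x⁻¹ + (x + a)⁻¹)).2 = c := by
  by_cases h1 : ∀ a : K32, (φ (a, 0)).1 = 0 → a = 0
  · exact key_aux φ h h1 c hc
  by_cases h2 : ∀ b : K32, (φ (0, b)).1 = 0 → b = 0
  · -- exchange the two factors
    obtain ⟨b, y, hb, hby⟩ := key_aux (AddEquiv.prodComm.trans φ) (by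
      intro b hb y
      obtain ⟨x, hx0, hx⟩ := swap_mem hb y
      have := h _ hx0 x
      rw [hx] at this
      exact this) (by
      intro a ha
      exact h2 a ha) c hc
    obtain ⟨x, hx0, hx⟩ := swap_mem hb y
    refine ⟨_, x, hx0, ?_⟩
    rw [hx]
    exact hby
  · exfalso
    push Not at h1 h2
    obtain ⟨s, hs, hs0⟩ := h1
    obtain ⟨t, ht, ht0⟩ := h2
    -- rescale so that `t` becomes one
    set A : K32 × K32 →+ K32 := ((AddMonoidHom.fst K32 K32).comp φ.toAddMonoidHom).comp
      (AddMonoidHom.prodMap (AddMonoidHom.mulLeft t⁻¹) (AddMonoidHom.mulLeft t)) with hA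
    have hAa : ∀ a b, A (a, b) = (φ (t⁻¹ * a, t * b)).1 := fun a b => rfl
    apply case_three A _ (t * s) (mul_ne_zero ht0 hs0)
    · rw [hAa, inv_mul_cancel_left₀ ht0, mul_zero]
      exact hs
    · rw [hAa, mul_zero, mul_one]
      exact ht
    · intro a ha x
      rw [hAa]
      have h3 := h (t⁻¹ * a) (mul_ne_zero (inv_ne_zero ht0) ha) (t⁻¹ * x)
      rwa [scale _ _ _ (inv_ne_zero ht0), inv_inv] at h3

end Q155.APN
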