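import Pool.Agent.Q155.APN.Check

set_option autoImplicit false

namespace Q155.APN

theorem allL_iff {n : ℕ} {p : ℕ → Bool} : allL n p = true ↔ ∀ i < n, p i = true := by
  unfold allL
  rw [List.all_eq_true]
  constructor
  · intro h i hi
    exact h i (List.mem_range.2 hi)
  · intro h i hi
    exact h i (List.mem_range.1 hi)

theorem rep : ∀ a : K32, ∃ e₀ e₁ e₂ e₃ e₄ : Bool, a = (if e₄ then K32.of 16 else 0) +
    (if e₃ then K32.of 8 else 0) + (if e₂ then K32.of 4 else 0) + (if e₁ then K32.of 2 else 0) +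
    (if e₀ then K32.of 1 else 0) := by decide +kernel

theorem search (L : K32 →+ K32) (c : K32) (hc : chk c.val = true) (h : ∀ a, Ok a (L a + c)) :
    c = 0 ∧ L = 0 := by
  have key : ∀ a : K32, okN a.val ((L a).val ^^^ c.val) = true := by
    intro a
    rw [← val_add]
    exact okN_of _ _ (h a)
  have k1 : okN 1 ((L (K32.of 1)).val ^^^ c.val) = true := by
    have h1 := key (K32.of 1)
    exact h1
  have k2 : okN 2 ((L (K32.of 2)).val ^^^ c.val) = true := by
    have h1 := key (K32.of 2)
    exact h1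
  have k3 : okN 3 ((L (K32.of 2)).val ^^^ (L (K32.of 1)).val ^^^ c.val) = true := by
    have h1 := key (K32.of 2 + K32.of 1)
    rw [show (K32.of 2 + K32.of 1).val = 3 by decide +kernel] at h1
    simpa only [map_add, val_add] using h1
  have k4 : okN 4 ((L (K32.of 4)).val ^^^ c.val) = true := by
    have h1 := key (K32.of 4)
    exact h1
  have k5 : okN 5 ((L (K32.of 4)).val ^^^ (L (K32.of 1)).val ^^^ c.val) = true := by
    have h1 := key (K32.of 4 + K32.of 1)
    rw [show (K32.of 4 + K32.of 1).val = 5 by decide +kernel] at h1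
    simpa only [map_add, val_add] using h1
  have k6 : okN 6 ((L (K32.of 4)).val ^^^ (L (K32.of 2)).val ^^^ c.val) = true := by
    have h1 := key (K32.of 4 + K32.of 2)
    rw [show (K32.of 4 + K32.of 2).val = 6 by decide +kernel] at h1
    simpa only [map_add, val_add] using h1
  have k7 : okN 7 ((L (K32.of 4)).val ^^^ (L (K32.of 2)).val ^^^ (L (K32.of 1)).val ^^^ c.val) = true := by
    have h1 := key (K32.of 4 + K32.of 2 + K32.of 1)
    rw [show (K32.of 4 + K32.of 2 + K32.of 1).val = 7 by decide +kernel] at h1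
    simpa only [map_add, val_add] using h1
  have k8 : okN 8 ((L (K32.of 8)).val ^^^ c.val) = true := by
    have h1 := key (K32.of 8)
    exact h1
  have k9 : okN 9 ((L (K32.of 8)).val ^^^ (L (K32.of 1)).val ^^^ c.val) = true := by
    have h1 := key (K32.of 8 + K32.of 1)
    rw [show (K32.of 8 + K32.of 1).val = 9 by decide +kernel] at h1
    simpa only [map_add, val_add] using h1
  have k10 : okN 10 ((L (K32.of 8)).val ^^^ (L (K32.of 2)).val ^^^ c.val) = true := by
    have h1 := key (K32.of 8 + K32.of 2)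
    rw [show (K32.of 8 + K32.of 2).val = 10 by decide +kernel] at h1
    simpa only [map_add, val_add] using h1
  have k11 : okN 11 ((L (K32.of 8)).val ^^^ (L (K32.of 2)).val ^^^ (L (K32.of 1)).val ^^^ c.val) = true := by
    have h1 := key (K32.of 8 + K32.of 2 + K32.of 1)
    rw [show (K32.of 8 + K32.of 2 + K32.of 1).val = 11 by decide +kernel] at h1
    simpa only [map_add, val_add] using h1
  have k12 : okN 12 ((L (K32.of 8)).val ^^^ (L (K32.of 4)).val ^^^ c.val) = true := by
    have h1 := key (K32.of 8 + K32.of 4)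
    rw [show (K32.of 8 + K32.of 4).val = 12 by decide +kernel] at h1
    simpa only [map_add, val_add] using h1
  have k13 : okN 13 ((L (K32.of 8)).val ^^^ (L (K32.of 4)).val ^^^ (L (K32.of 1)).val ^^^ c.val) = true := by
    have h1 := key (K32.of 8 + K32.of 4 + K32.of 1)
    rw [show (K32.of 8 + K32.of 4 + K32.of 1).val = 13 by decide +kernel] at h1
    simpa only [map_add, val_add] using h1
  have k14 : okN 14 ((L (K32.of 8)).val ^^^ (L (K32.of 4)).val ^^^ (L (K32.of 2)).val ^^^ c.val) = true := by
    have h1 := key (K32.of 8 + K32.of 4 + K32.of 2)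
    rw [show (K32.of 8 + K32.of 4 + K32.of 2).val = 14 by decide +kernel] at h1
    simpa only [map_add, val_add] using h1
  have k15 : okN 15 ((L (K32.of 8)).val ^^^ (L (K32.of 4)).val ^^^ (L (K32.of 2)).val ^^^ (L (K32.of 1)).val ^^^ c.val) = true := by
    have h1 := key (K32.of 8 + K32.of 4 + K32.of 2 + K32.of 1)
    rw [show (K32.of 8 + K32.of 4 + K32.of 2 + K32.of 1).val = 15 by decide +kernel] at h1
    simpa only [map_add, val_add] using h1
  have k16 : okN 16 ((L (K32.of 16)).val ^^^ c.val) = true := by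
    have h1 := key (K32.of 16)
    exact h1
  have k17 : okN 17 ((L (K32.of 16)).val ^^^ (L (K32.of 1)).val ^^^ c.val) = true := by
    have h1 := key (K32.of 16 + K32.of 1)
    rw [show (K32.of 16 + K32.of 1).val = 17 by decide +kernel] at h1
    simpa only [map_add, val_add] using h1
  have k18 : okN 18 ((L (K32.of 16)).val ^^^ (L (K32.of 2)).val ^^^ c.val) = true := by
    have h1 := key (K32.of 16 + K32.of 2)
    rw [show (K32.of 16 + K32.of 2).val = 18 by decide +kernel] at h1
    simpa only [map_add, val_add] using h1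
  have k19 : okN 19 ((L (K32.of 16)).val ^^^ (L (K32.of 2)).val ^^^ (L (K32.of 1)).val ^^^ c.val) = true := by
    have h1 := key (K32.of 16 + K32.of 2 + K32.of 1)
    rw [show (K32.of 16 + K32.of 2 + K32.of 1).val = 19 by decide +kernel] at h1
    simpa only [map_add, val_add] using h1
  have k20 : okN 20 ((L (K32.of 16)).val ^^^ (L (K32.of 4)).val ^^^ c.val) = true := by
    have h1 := key (K32.of 16 + K32.of 4)
    rw [show (K32.of 16 + K32.of 4).val = 20 by decide +kernel] at h1
    simpa only [map_add, val_add] using h1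
  have k21 : okN 21 ((L (K32.of 16)).val ^^^ (L (K32.of 4)).val ^^^ (L (K32.of 1)).val ^^^ c.val) = true := by
    have h1 := key (K32.of 16 + K32.of 4 + K32.of 1)
    rw [show (K32.of 16 + K32.of 4 + K32.of 1).val = 21 by decide +kernel] at h1
    simpa only [map_add, val_add] using h1
  have k22 : okN 22 ((L (K32.of 16)).val ^^^ (L (K32.of 4)).val ^^^ (L (K32.of 2)).val ^^^ c.val) = true := by
    have h1 := key (K32.of 16 + K32.of 4 + K32.of 2)
    rw [show (K32.of 16 + K32.of 4 + K32.of 2).val = 22 by decide +kernel] at h1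
    simpa only [map_add, val_add] using h1
  have k23 : okN 23 ((L (K32.of 16)).val ^^^ (L (K32.of 4)).val ^^^ (L (K32.of 2)).val ^^^ (L (K32.of 1)).val ^^^ c.val) = true := by
    have h1 := key (K32.of 16 + K32.of 4 + K32.of 2 + K32.of 1)
    rw [show (K32.of 16 + K32.of 4 + K32.of 2 + K32.of 1).val = 23 by decide +kernel] at h1
    simpa only [map_add, val_add] using h1
  have k24 : okN 24 ((L (K32.of 16)).val ^^^ (L (K32.of 8)).val ^^^ c.val) = true := by
    have h1 := key (K32.of 16 + K32.of 8)
    rw [show (K32.of 16 + K32.of 8).val = 24 by decide +kernel] at h1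
    simpa only [map_add, val_add] using h1
  have k25 : okN 25 ((L (K32.of 16)).val ^^^ (L (K32.of 8)).val ^^^ (L (K32.of 1)).val ^^^ c.val) = true := by
    have h1 := key (K32.of 16 + K32.of 8 + K32.of 1)
    rw [show (K32.of 16 + K32.of 8 + K32.of 1).val = 25 by decide +kernel] at h1
    simpa only [map_add, val_add] using h1
  have k26 : okN 26 ((L (K32.of 16)).val ^^^ (L (K32.of 8)).val ^^^ (L (K32.of 2)).val ^^^ c.val) = true := by
    have h1 := key (K32.of 16 + K32.of 8 + K32.of 2)
    rw [show (K32.of 16 + K32.of 8 + K32.of 2).val = 26 by decide +kernel] at h1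
    simpa only [map_add, val_add] using h1
  have k27 : okN 27 ((L (K32.of 16)).val ^^^ (L (K32.of 8)).val ^^^ (L (K32.of 2)).val ^^^ (L (K32.of 1)).val ^^^ c.val) = true := by
    have h1 := key (K32.of 16 + K32.of 8 + K32.of 2 + K32.of 1)
    rw [show (K32.of 16 + K32.of 8 + K32.of 2 + K32.of 1).val = 27 by decide +kernel] at h1
    simpa only [map_add, val_add] using h1
  have k28 : okN 28 ((L (K32.of 16)).val ^^^ (L (K32.of 8)).val ^^^ (L (K32.of 4)).val ^^^ c.val) = true := by
    have h1 := key (K32.of 16 + K32.of 8 + K32.of 4)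
    rw [show (K32.of 16 + K32.of 8 + K32.of 4).val = 28 by decide +kernel] at h1
    simpa only [map_add, val_add] using h1
  have k29 : okN 29 ((L (K32.of 16)).val ^^^ (L (K32.of 8)).val ^^^ (L (K32.of 4)).val ^^^ (L (K32.of 1)).val ^^^ c.val) = true := by
    have h1 := key (K32.of 16 + K32.of 8 + K32.of 4 + K32.of 1)
    rw [show (K32.of 16 + K32.of 8 + K32.of 4 + K32.of 1).val = 29 by decide +kernel] at h1
    simpa only [map_add, val_add] using h1
  have k30 : okN 30 ((L (K32.of 16)).val ^^^ (L (K32.of 8)).val ^^^ (L (K32.of 4)).val ^^^ (L (K32.of 2)).val ^^^ c.val) = true := by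
    have h1 := key (K32.of 16 + K32.of 8 + K32.of 4 + K32.of 2)
    rw [show (K32.of 16 + K32.of 8 + K32.of 4 + K32.of 2).val = 30 by decide +kernel] at h1
    simpa only [map_add, val_add] using h1
  have k31 : okN 31 ((L (K32.of 16)).val ^^^ (L (K32.of 8)).val ^^^ (L (K32.of 4)).val ^^^ (L (K32.of 2)).val ^^^ (L (K32.of 1)).val ^^^ c.val) = true := by
    have h1 := key (K32.of 16 + K32.of 8 + K32.of 4 + K32.of 2 + K32.of 1)
    rw [show (K32.of 16 + K32.of 8 + K32.of 4 + K32.of 2 + K32.of 1).val = 31 by decide +kernel] at h1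
    simpa only [map_add, val_add] using h1
  have h1 := (allL_iff.1 hc) _ (val_lt (L (K32.of 1)))
  rw [k1, Bool.not_true, Bool.false_or] at h1
  have h2 := (allL_iff.1 h1) _ (val_lt (L (K32.of 2)))
  rw [k2, k3, Bool.and_self, Bool.not_true, Bool.false_or] at h2
  have h3 := (allL_iff.1 h2) _ (val_lt (L (K32.of 4)))
  have e3 : c3 c.val (L (K32.of 1)).val (L (K32.of 2)).val (L (K32.of 4)).val = true := by
    unfold c3
    rw [k4, k5, k6, k7]
    rfl
  rw [e3, Bool.not_true, Bool.false_or] at h3
  have h4 := (allL_iff.1 h3) _ (val_lt (L (K32.of 8)))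
  have e4 : c4 c.val (L (K32.of 1)).val (L (K32.of 2)).val (L (K32.of 4)).val
      (L (K32.of 8)).val = true := by
    unfold c4
    rw [k8, k9, k10, k11, k12, k13, k14, k15]
    rfl
  rw [e4, Bool.not_true, Bool.false_or] at h4
  have h5 := (allL_iff.1 h4) _ (val_lt (L (K32.of 16)))
  have e5 : c5 c.val (L (K32.of 1)).val (L (K32.of 2)).val (L (K32.of 4)).val
      (L (K32.of 8)).val (L (K32.of 16)).val = true := by
    unfold c5
    rw [k16, k17, k18, k19, k20, k21, k22, k23, k24, k25, k26, k27, k28, k29, k30, k31]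
    rfl
  rw [e5, Bool.not_true, Bool.false_or] at h5
  simp only [Bool.and_eq_true, beq_iff_eq] at h5
  obtain ⟨z1, z2, z3, z4, z5, z6⟩ := h5
  have hz : ∀ a : K32, a.val = 0 → a = 0 := fun a ha => val_inj a 0 (ha.trans (by decide +kernel))
  refine ⟨hz c z6, ?_⟩
  ext a
  obtain ⟨e₀, e₁, e₂, e₃, e₄, rfl⟩ := rep a
  have y1 := hz _ z1
  have y2 := hz _ z2
  have y3 := hz _ z3
  have y4 := hz _ z4
  have y5 := hz _ z5
  rw [map_add, map_add, map_add, map_add, apply_ite L, apply_ite L, apply_ite L, apply_ite L,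
    apply_ite L, map_zero, y1, y2, y3, y4, y5]
  simp

theorem scale (t a x : K32) (ht : t ≠ 0) :
    (t * x)⁻¹ + (t * x + t * a)⁻¹ = t⁻¹ * (x⁻¹ + (x + a)⁻¹) := by
  rw [← mul_add, mul_inv, mul_inv, mul_add]

/-- An additive map plus a constant avoids all derivative images of the inverse map only if it is
zero. -/
theorem affine_avoid (L : K32 →+ K32) (c : K32)
    (h : ∀ a : K32, a ≠ 0 → ∀ x : K32, x⁻¹ + (x + a)⁻¹ ≠ L a + c) : c = 0 ∧ L = 0 := by
  by_cases hc : c = 0
  · subst hc
    exact search L 0 chk_zero (fun a ha x => h a ha x)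
  · exfalso
    have h1 := search ((AddMonoidHom.mulLeft c⁻¹).comp (L.comp (AddMonoidHom.mulLeft c⁻¹))) 1
      chk_one (by
        intro a ha x hx
        have hci : c⁻¹ ≠ 0 := inv_ne_zero hc
        apply h (c⁻¹ * a) (mul_ne_zero hci ha) (c⁻¹ * x)
        rw [scale _ _ _ hci, hx]
        simp only [AddMonoidHom.comp_apply, AddMonoidHom.coe_mulLeft, inv_inv]
        rw [mul_add, mul_inv_cancel_left₀ hc, mul_one])
    exact one_ne_zero h1.1

end Q155.APN
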