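import Pool.Agent.Q155.APN.Key

set_option autoImplicit false

namespace Q155.APN

theorem exists_equiv {F : Type*} [Field F] (hF : Nat.card F = 32) : Nonempty (F ≃+* K32) := by
  have hfin : Finite F := Nat.finite_of_card_ne_zero (by omega)
  have := Fintype.ofFinite F
  exact ⟨FiniteField.ringEquivOfCardEq (by rw [card_K32, ← Nat.card_eq_fintype_card, hF])⟩

theorem field_add_self {F : Type*} [Field F] (hF : Nat.card F = 32) (a : F) : a + a = 0 := by
  obtain ⟨e⟩ := exists_equiv hF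
  apply e.injective
  rw [map_add, map_zero, add_self']

theorem field_key {F : Type*} [Field F] (hF : Nat.card F = 32) (φ : (F × F) ≃+ (F × F))
    (h : ∀ a : F, a ≠ 0 → ∀ x : F, (φ (a, x⁻¹ + (x + a)⁻¹)).1 ≠ 0) (c : F) (hc : c ≠ 0) :
    ∃ a x : F, a ≠ 0 ∧ (φ (a, x⁻¹ + (x + a)⁻¹)).2 = c := by
  obtain ⟨e⟩ := exists_equiv hF
  set E : (F × F) ≃+ (K32 × K32) := AddEquiv.prodCongr e.toAddEquiv e.toAddEquiv with hE
  set ψ : (K32 × K32) ≃+ (K32 × K32) := E.symm.trans (φ.trans E) with hψ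
  have hψe : ∀ a x : K32, ψ (a, x⁻¹ + (x + a)⁻¹) =
      (e (φ (e.symm a, (e.symm x)⁻¹ + (e.symm x + e.symm a)⁻¹)).1,
        e (φ (e.symm a, (e.symm x)⁻¹ + (e.symm x + e.symm a)⁻¹)).2) := by
    intro a x
    have h1 : E.symm (a, x⁻¹ + (x + a)⁻¹) =
        (e.symm a, (e.symm x)⁻¹ + (e.symm x + e.symm a)⁻¹) := by
      rw [← map_inv₀ e.symm, ← map_add e.symm x, ← map_inv₀ e.symm, ← map_add]
      rfl
    rw [hψ, AddEquiv.trans_apply, AddEquiv.trans_apply, h1]
    rfl
  obtain ⟨a, x, ha, hax⟩ := key ψ (by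
    intro a ha x
    rw [hψe]
    have h2 := h (e.symm a) (by simpa using ha) (e.symm x)
    simpa using h2) (e c) (by simpa using hc)
  refine ⟨e.symm a, e.symm x, by simpa using ha, ?_⟩
  rw [hψe] at hax
  exact e.injective hax

theorem apn32 : ∀ a : K32, a ≠ 0 → ∀ b : K32,
    (Finset.univ.filter (fun x : K32 => (x + a)⁻¹ + x⁻¹ = b)).card ≤ 2 := by decide +kernel

theorem field_apn {F : Type*} [Field F] (hF : Nat.card F = 32) (a : F) (ha : a ≠ 0) (b : F) :
    {x : F | (x + a)⁻¹ + x⁻¹ = b}.ncard ≤ 2 := by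
  obtain ⟨e⟩ := exists_equiv hF
  have h1 := apn32 (e a) (by simpa using ha) (e b)
  have h2 : e '' {x : F | (x + a)⁻¹ + x⁻¹ = b} =
      ((Finset.univ.filter (fun x : K32 => (x + e a)⁻¹ + x⁻¹ = e b) : Finset K32) : Set K32) := by
    ext y
    rw [Finset.mem_coe, Finset.mem_filter]
    constructor
    · rintro ⟨x, hx, rfl⟩
      refine ⟨Finset.mem_univ _, ?_⟩
      rw [← map_add, ← map_inv₀, ← map_inv₀, ← map_add]
      exact congrArg e hx
    · rintro ⟨-, hy⟩
      refine ⟨e.symm y, ?_, e.apply_symm_apply y⟩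
      apply e.injective
      rw [map_add, map_inv₀, map_inv₀, map_add, e.apply_symm_apply]
      exact hy
  rw [← Set.ncard_image_of_injective _ e.injective, h2, Set.ncard_coe_finset]
  exact h1

/-- Counting the differences of an ordinary difference set. -/
theorem no_diff_set {F : Type*} [Field F] (hF : Nat.card F = 32) (R : Set F) (lam : ℕ)
    (h : ∀ g : F, g ≠ 0 →
      {q : F × F | q.1 ∈ R ∧ q.2 ∈ R ∧ q.1 ≠ q.2 ∧ q.1 - q.2 = g}.ncard = lam)
    (h2 : 2 ≤ R.ncard) (h30 : R.ncard + 2 ≤ 32) : False := by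
  classical
  have hfin : Finite F := Nat.finite_of_card_ne_zero (by omega)
  have := Fintype.ofFinite F
  set S : Finset F := R.toFinset with hS
  have hSR : ∀ x, x ∈ S ↔ x ∈ R := by intro x; simp [hS]
  have hSc : S.card = R.ncard := by
    rw [hS, Set.ncard_eq_toFinset_card']
  have h3 : S.offDiag.card = ∑ g ∈ Finset.univ.erase (0 : F),
      (S.offDiag.filter (fun q => q.1 - q.2 = g)).card := by
    apply Finset.card_eq_sum_card_fiberwise
    intro q hq
    rw [Finset.mem_coe, Finset.mem_offDiag] at hq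
    rw [Finset.mem_coe, Finset.mem_erase]
    exact ⟨sub_ne_zero.2 hq.2.2, Finset.mem_univ _⟩
  have h4 : ∀ g ∈ Finset.univ.erase (0 : F),
      (S.offDiag.filter (fun q => q.1 - q.2 = g)).card = lam := by
    intro g hg
    rw [← h g (Finset.mem_erase.1 hg).1, ← Set.ncard_coe_finset]
    congr 1
    ext q
    rw [Finset.mem_coe, Finset.mem_filter, Finset.mem_offDiag, hSR, hSR]
    simp only [Set.mem_ofPred_eq]
    tauto
  rw [Finset.sum_const_nat h4, Finset.card_erase_of_mem (Finset.mem_univ _), Finset.card_univ,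
    ← Nat.card_eq_fintype_card, hF, Finset.offDiag_card, hSc] at h3
  set k := R.ncard with hk
  have hk30 : k ≤ 30 := by omega
  interval_cases k <;> omega

end Q155.APN
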